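import Pool.Agent.H450Z.GSUndet
import Pool.Agent.H450Z.GLGame

set_option autoImplicit false

namespace Pool.Agent.Results.MP_4e0375_lc.AIndependent

open Pool.Agent.H450Z

/-- The question is independent. First part: a forcing notion which adds no reals (so that the
ground model set `Set ℕ` has size continuum in the extension) forces that every Gale-Stewart game
with moves in `ℕ` on the boards `Set ℕ` is determined. Second part: if every set is
constructible, some game with moves in `ℕ` on the boards `Set ℕ` is undetermined. -/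
theorem result :
    (∃ (P : Type) (_ : Preorder P), Nonempty P ∧ ∀ p : P, p ∈ GS.NoNewSubsets P ℕ ∧
      ∀ S : (ℕ → ℕ → Set P) → Set P, p ∈ GS.Determined (Set ℕ) S) ∧
    (GL.VeqL → ∃ S : Set (ℕ → ℕ),
      ¬ (∃ σ : List (Set ℕ → ℕ) → (Set ℕ → ℕ), ∀ f : ℕ → Set ℕ → ℕ,
          (∀ n : ℕ, f (2 * n) = σ (List.ofFn (fun i : Fin (2 * n) => f i.val))) →
            ∃ α : Set ℕ, (fun n : ℕ => f n α) ∈ S) ∧
      ¬ (∃ τ : List (Set ℕ → ℕ) → (Set ℕ → ℕ), ∀ f : ℕ → Set ℕ → ℕ,
          (∀ n : ℕ, f (2 * n + 1) = τ (List.ofFn (fun i : Fin (2 * n + 1) => f i.val))) →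
            ∀ α : Set ℕ, (fun n : ℕ => f n α) ∉ S)) :=
  ⟨GS.general ℕ, fun hL => (GL.undetermined hL ℕ).imp fun _ h => h (Set ℕ) ⟨∅⟩⟩

end Pool.Agent.Results.MP_4e0375_lc.AIndependent
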